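import Pool.Agent.Q279.HT.Upper

open scoped ENNReal NNReal Topology
open MeasureTheory Set Filter

namespace Q279.HT

namespace PTree

variable {T : PTree}

lemma isGeod_anc (x : T.V) : T.IsGeod (T.anc x) := by
  constructor
  · rintro _ ⟨n, rfl⟩
    exact ⟨n + 1, by rw [Function.iterate_succ_apply']⟩
  · rintro _ ⟨n, rfl⟩ _ ⟨m, rfl⟩
    rcases le_total n m with h | h
    · right
      obtain ⟨k, rfl⟩ := Nat.exists_eq_add_of_le h
      exact ⟨k, by rw [add_comm, Function.iterate_add_apply]⟩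
    · left
      obtain ⟨k, rfl⟩ := Nat.exists_eq_add_of_le h
      exact ⟨k, by rw [add_comm, Function.iterate_add_apply]⟩

/-- the vertices as points -/
def vert (x : T.V) : T.Pt := ⟨T.anc x, isGeod_anc x⟩

lemma I_vert (φ : T.V → ℝ≥0) (x : T.V) : I φ (vert x) = F φ x := tsum_anc φ x

end PTree

open PTree

/-- the half line -/
abbrev pathTree : PTree where
  V := ℕ
  countable := inferInstance
  root := (0 : ℕ)
  parent := Nat.pred
  parent_root := rfl
  reach := fun x => ⟨x, by simp [Nat.pred_iterate]⟩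
  finite_children := fun x => by
    refine ((Set.finite_Iic (x + 1 : ℕ))).subset ?_
    intro y hy
    have : Nat.pred y = x := hy
    simp only [mem_Iic]
    change (y : ℕ) ≤ (x : ℕ) + 1
    have h2 : (y : ℕ) - 1 = x := this
    omega

lemma mem_anc_iff (x y : ℕ) : (y ∈ pathTree.anc x) ↔ y ≤ x := by
  constructor
  · rintro ⟨n, hn⟩
    have : Nat.pred^[n] x = y := hn
    rw [Nat.pred_iterate] at this
    omega
  · intro h
    refine ⟨x - y, ?_⟩
    change Nat.pred^[x - y] x = y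
    rw [Nat.pred_iterate]
    omega

lemma F_path (φ : ℕ → ℝ≥0) (n : ℕ) :
    F (T := pathTree) φ n = ∑ k ∈ Finset.range (n + 1), φ k := by
  induction n with
  | zero =>
    rw [zero_add, Finset.sum_range_one]
    exact F_root (T := pathTree) φ
  | succ n ih =>
    have h : n + 1 ≠ pathTree.root := Nat.succ_ne_zero n
    have h2 := F_step (T := pathTree) φ h
    rw [Finset.sum_range_succ, ← ih]
    exact h2

/-! ### the weights -/

/-- the numbers `u_k`, with sums `y ^ (-n)` -/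
noncomputable def u (y : ℝ) (k : ℕ) : ℝ := if k = 0 then 1 else (y ^ k)⁻¹ * (1 - y)

lemma u_pos {y : ℝ} (h0 : 0 < y) (h1 : y < 1) (k : ℕ) : 0 < u y k := by
  unfold u
  split_ifs
  · exact one_pos
  · have : 0 < 1 - y := by linarith
    positivity

lemma sum_u {y : ℝ} (h0 : 0 < y) (n : ℕ) :
    ∑ k ∈ Finset.range (n + 1), u y k = (y ^ n)⁻¹ := by
  induction n with
  | zero => simp [u]
  | succ n ih =>
    rw [Finset.sum_range_succ, ih]
    simp only [u, Nat.succ_ne_zero, if_false]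
    have : y ≠ 0 := h0.ne'
    field_simp
    ring

noncomputable def wt (p y : ℝ) (k : ℕ) : ℝ≥0 := Real.toNNReal (u y k ^ (1 - p))

lemma wt_coe (p y : ℝ) (k : ℕ) :
    ((wt p y k : ℝ≥0) : ℝ≥0∞) = ENNReal.ofReal (u y k ^ (1 - p)) := rfl

noncomputable def mu (p y : ℝ) : Measure pathTree.Pt :=
  Measure.sum (fun n : ℕ => ENNReal.ofReal ((1 - y ^ (p - 1)) * (y ^ (p - 1)) ^ n) •
    Measure.dirac (vert (T := pathTree) n))

lemma energy_ge {p : ℝ} (hp : 1 < p) {y : ℝ} (h0 : 0 < y) (h1 : y < 1) (n : ℕ)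
    (φ : ℕ → ℝ≥0) (h : 1 ≤ F (T := pathTree) φ n) :
    ENNReal.ofReal ((y ^ (p - 1)) ^ n) ≤ energy (T := pathTree) p (wt p y) φ := by
  have hp0 : 0 < p := by linarith
  have hp1 : 0 < p - 1 := by linarith
  have hpq : p.HolderConjugate (p / (p - 1)) := by
    have := Real.HolderConjugate.conjExponent hp
    simpa [Real.conjExponent] using this
  set q := p / (p - 1) with hq
  have hq0 : 0 < q := div_pos hp0 hp1
  have hu := u_pos h0 h1
  have H := Real.inner_le_Lp_mul_Lq_of_nonneg (Finset.range (n + 1)) hpq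
    (f := fun k => (φ k : ℝ) * u y k ^ (-(1 / q))) (g := fun k => u y k ^ (1 / q))
    (fun k _ => mul_nonneg (φ k).coe_nonneg (Real.rpow_nonneg (hu k).le _))
    (fun k _ => Real.rpow_nonneg (hu k).le _)
  have e1 : ∀ k, (φ k : ℝ) * u y k ^ (-(1 / q)) * u y k ^ (1 / q) = φ k := by
    intro k
    rw [mul_assoc, ← Real.rpow_add (hu k), neg_add_cancel, Real.rpow_zero, mul_one]
  have e2 : ∀ k, ((φ k : ℝ) * u y k ^ (-(1 / q))) ^ p
      = (φ k : ℝ) ^ p * u y k ^ (1 - p) := by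
    intro k
    rw [Real.mul_rpow (φ k).coe_nonneg (Real.rpow_nonneg (hu k).le _), ← Real.rpow_mul (hu k).le]
    congr 2
    rw [hq]
    field_simp
    ring
  have e3 : ∀ k, (u y k ^ (1 / q)) ^ q = u y k := by
    intro k
    rw [← Real.rpow_mul (hu k).le, one_div_mul_cancel hq0.ne', Real.rpow_one]
  simp only [e1, e2, e3, sum_u h0] at H
  have h2 : (1 : ℝ) ≤ ∑ k ∈ Finset.range (n + 1), (φ k : ℝ) := by
    rw [F_path] at h
    exact_mod_cast h
  set E := ∑ k ∈ Finset.range (n + 1), (φ k : ℝ) ^ p * u y k ^ (1 - p) with hE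
  have hE0 : 0 ≤ E := Finset.sum_nonneg (fun k _ =>
    mul_nonneg (Real.rpow_nonneg (φ k).coe_nonneg _) (Real.rpow_nonneg (hu k).le _))
  have h3 : 1 ≤ E ^ (1 / p) * ((y ^ n)⁻¹) ^ (1 / q) := h2.trans H
  have hyn : 0 < y ^ n := pow_pos h0 n
  have h4 : (1 : ℝ) ≤ E * ((y ^ n)⁻¹) ^ (p - 1) := by
    have := Real.rpow_le_rpow zero_le_one h3 hp0.le
    rw [Real.one_rpow, Real.mul_rpow (Real.rpow_nonneg hE0 _) (by positivity),
      ← Real.rpow_mul hE0, ← Real.rpow_mul (by positivity), one_div_mul_cancel hp0.ne',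
      Real.rpow_one] at this
    have e4 : 1 / q * p = p - 1 := by
      rw [hq]
      field_simp
    rwa [e4] at this
  have h5 : (y ^ (p - 1)) ^ n ≤ E := by
    rw [Real.inv_rpow hyn.le] at h4
    have e5 : (y ^ (p - 1)) ^ n = (y ^ n) ^ (p - 1) := by
      rw [← Real.rpow_natCast, ← Real.rpow_mul h0.le, ← Real.rpow_natCast, ← Real.rpow_mul h0.le,
        mul_comm]
    rw [e5]
    have h6 : 0 < (y ^ n) ^ (p - 1) := Real.rpow_pos_of_pos hyn _
    rw [← div_eq_mul_inv, le_div_iff₀ h6, one_mul] at h4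
    exact h4
  refine le_trans (ENNReal.ofReal_le_ofReal h5) ?_
  rw [hE, ENNReal.ofReal_sum_of_nonneg (fun k _ =>
    mul_nonneg (Real.rpow_nonneg (φ k).coe_nonneg _) (Real.rpow_nonneg (hu k).le _))]
  refine le_trans (le_of_eq ?_) (ENNReal.sum_le_tsum (f := fun α : ℕ =>
    ((φ α : ℝ≥0) : ℝ≥0∞) ^ p * (wt p y α : ℝ≥0)) (Finset.range (n + 1)))
  refine Finset.sum_congr rfl ?_
  intro k _
  rw [ENNReal.ofReal_mul (Real.rpow_nonneg (φ k).coe_nonneg _), wt_coe,
    ← ENNReal.ofReal_rpow_of_nonneg (φ k).coe_nonneg hp0.le]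
  congr 2
  exact ENNReal.ofReal_coe_nnreal

lemma Q_bounds {p : ℝ} (hp : 1 < p) {y : ℝ} (h0 : 0 < y) (h1 : y < 1) :
    0 < y ^ (p - 1) ∧ y ^ (p - 1) < 1 :=
  ⟨Real.rpow_pos_of_pos h0 _, Real.rpow_lt_one h0.le h1 (by linarith)⟩

lemma mu_S {p : ℝ} (hp : 1 < p) {y : ℝ} (h0 : 0 < y) (h1 : y < 1) (n : ℕ) :
    mu p y (pathTree.S n) ≤ ENNReal.ofReal ((y ^ (p - 1)) ^ n) := by
  obtain ⟨hQ0, hQ1⟩ := Q_bounds hp h0 h1
  set Q := y ^ (p - 1) with hQ
  rw [mu, Measure.sum_apply _ (isOpen_S (T := pathTree) n).measurableSet]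
  simp only [Measure.smul_apply, smul_eq_mul]
  have e1 : ∀ k : ℕ, (Measure.dirac (vert (T := pathTree) k)) (pathTree.S n)
      = if n ≤ k then 1 else 0 := by
    intro k
    rw [Measure.dirac_apply' _ (isOpen_S (T := pathTree) n).measurableSet]
    by_cases h : n ≤ k
    · rw [if_pos h, indicator_of_mem]
      · rfl
      · exact (mem_anc_iff k n).mpr h
    · rw [if_neg h, indicator_of_notMem]
      intro h2
      exact h ((mem_anc_iff k n).mp h2)
  simp_rw [e1]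
  rw [← Summable.sum_add_tsum_nat_add' (k := n) ENNReal.summable]
  have e2 : ∑ i ∈ Finset.range n, ENNReal.ofReal ((1 - Q) * Q ^ i) * (if n ≤ i then 1 else 0) = 0 := by
    refine Finset.sum_eq_zero ?_
    intro i hi
    rw [if_neg (by have := Finset.mem_range.mp hi; omega), mul_zero]
  rw [e2, zero_add]
  have e3 : ∀ i : ℕ, ENNReal.ofReal ((1 - Q) * Q ^ (i + n)) * (if n ≤ i + n then 1 else 0)
      = ENNReal.ofReal (Q ^ n * ((1 - Q) * Q ^ i)) := by
    intro i
    rw [if_pos (by omega), mul_one]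
    congr 1
    ring
  rw [tsum_congr e3]
  have hs : HasSum (fun i : ℕ => Q ^ n * ((1 - Q) * Q ^ i)) (Q ^ n * ((1 - Q) * (1 - Q)⁻¹)) :=
    ((hasSum_geometric_of_lt_one hQ0.le hQ1).mul_left _).mul_left _
  rw [← ENNReal.ofReal_tsum_of_nonneg _ hs.summable, hs.tsum_eq, mul_inv_cancel₀ (by linarith),
    mul_one]
  intro i
  have : 0 ≤ 1 - Q := by linarith
  positivity

lemma iso_le_one {p : ℝ} (hp : 1 < p) {y : ℝ} (h0 : 0 < y) (h1 : y < 1) :
    isoConst (T := pathTree) p (wt p y) (mu p y) ≤ 1 := by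
  refine iSup_le fun F => iSup_le fun hne => iSup_le fun hd => ?_
  obtain ⟨n, hn⟩ := hne
  have hF : F = {n} := by
    refine Finset.eq_singleton_iff_unique_mem.mpr ⟨hn, ?_⟩
    intro m hm
    by_contra hne
    have h3 := Set.disjoint_left.mp (hd hm hn hne)
    exact h3 (a := vert (T := pathTree) (max (m : ℕ) (n : ℕ) : ℕ))
      ((mem_anc_iff _ _).mpr (le_max_left (m : ℕ) n))
      ((mem_anc_iff _ _).mpr (le_max_right (m : ℕ) n))
  subst hF
  rw [Finset.sum_singleton]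
  refine ENNReal.div_le_of_le_mul ?_
  rw [one_mul]
  refine le_trans (mu_S hp h0 h1 n) ?_
  refine le_iInf₂ ?_
  intro φ hφ
  refine energy_ge hp h0 h1 n φ ?_
  have := hφ (vert (T := pathTree) n) (by
    simp only [Finset.mem_singleton, iUnion_iUnion_eq_left]
    exact self_mem_anc n)
  rw [I_vert] at this
  exact_mod_cast this

/-! ### the test function -/

/-- the test function, cut off at `M` -/
noncomputable def tf (p y : ℝ) (M k : ℕ) : ℝ≥0 :=
  if k = 0 then 1 else if k ≤ M then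
    Real.toNNReal (((y ^ ((p - 1) / p)) ^ k)⁻¹ * (1 - y ^ ((p - 1) / p))) else 0

lemma F_tf {p : ℝ} (hp : 1 < p) {y : ℝ} (h0 : 0 < y) (h1 : y < 1) (M n : ℕ) (hn : n ≤ M) :
    (F (T := pathTree) (tf p y M) n : ℝ) = ((y ^ ((p - 1) / p)) ^ n)⁻¹ := by
  have hb : 0 < (p - 1) / p := div_pos (by linarith) (by linarith)
  set z := y ^ ((p - 1) / p) with hz
  have hz0 : 0 < z := Real.rpow_pos_of_pos h0 _
  have hz1 : z < 1 := Real.rpow_lt_one h0.le h1 hb
  induction n with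
  | zero =>
    rw [F_path]
    simp [tf]
  | succ n ih =>
    rw [F_path, Finset.sum_range_succ, ← F_path]
    push_cast
    rw [ih (by omega)]
    simp only [tf, Nat.succ_ne_zero, if_false, if_pos hn]
    rw [Real.coe_toNNReal]
    · rw [← hz]
      field_simp
      ring
    · rw [← hz]
      have : 0 < 1 - z := by linarith
      positivity

lemma term_tf {p : ℝ} (hp : 1 < p) {y : ℝ} (h0 : 0 < y) (h1 : y < 1) (M k : ℕ) (hk : k ≠ 0)
    (hkM : k ≤ M) :
    ((tf p y M k : ℝ≥0) : ℝ≥0∞) ^ p * (wt p y k : ℝ≥0)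
      = ENNReal.ofReal ((1 - y ^ ((p - 1) / p)) ^ p * (1 - y) ^ (1 - p)) := by
  have hp0 : 0 < p := by linarith
  have hb : 0 < (p - 1) / p := div_pos (by linarith) (by linarith)
  have hz0 : 0 < y ^ ((p - 1) / p) := Real.rpow_pos_of_pos h0 _
  have hz1 : y ^ ((p - 1) / p) < 1 := Real.rpow_lt_one h0.le h1 hb
  have hz2 : 0 < 1 - y ^ ((p - 1) / p) := by linarith
  have hy2 : 0 < 1 - y := by linarith
  simp only [tf, if_neg hk, if_pos hkM, wt_coe]
  change ENNReal.ofReal (((y ^ ((p - 1) / p)) ^ k)⁻¹ * (1 - y ^ ((p - 1) / p))) ^ p *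
    ENNReal.ofReal (u y k ^ (1 - p)) = _
  rw [ENNReal.ofReal_rpow_of_nonneg (by positivity) hp0.le,
    ← ENNReal.ofReal_mul (by positivity)]
  congr 1
  simp only [u, if_neg hk]
  rw [Real.mul_rpow (by positivity) hz2.le, Real.mul_rpow (by positivity) hy2.le]
  have e1 : (((y ^ ((p - 1) / p)) ^ k)⁻¹) ^ p = ((y ^ (p - 1)) ^ k)⁻¹ := by
    rw [Real.inv_rpow (by positivity)]
    congr 1
    rw [← Real.rpow_natCast, ← Real.rpow_natCast, ← Real.rpow_mul h0.le, ← Real.rpow_mul h0.le,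
      ← Real.rpow_mul h0.le]
    congr 1
    field_simp
  have e2 : ((y ^ k)⁻¹) ^ (1 - p) = (y ^ (p - 1)) ^ k := by
    rw [Real.inv_rpow (by positivity), ← Real.rpow_neg (by positivity)]
    rw [← Real.rpow_natCast, ← Real.rpow_natCast, ← Real.rpow_mul h0.le, ← Real.rpow_mul h0.le]
    congr 1
    ring
  rw [e1, e2]
  have : (y ^ (p - 1)) ^ k ≠ 0 := by positivity
  field_simp

lemma energy_tf {p : ℝ} (hp : 1 < p) {y : ℝ} (h0 : 0 < y) (h1 : y < 1) (M : ℕ) :
    energy (T := pathTree) p (wt p y) (tf p y M)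
      = ENNReal.ofReal (1 + M * ((1 - y ^ ((p - 1) / p)) ^ p * (1 - y) ^ (1 - p))) := by
  have hp0 : 0 < p := by linarith
  have hb : 0 < (p - 1) / p := div_pos (by linarith) (by linarith)
  have hz1 : y ^ ((p - 1) / p) < 1 := Real.rpow_lt_one h0.le h1 hb
  have hz2 : 0 < 1 - y ^ ((p - 1) / p) := by linarith
  have hy2 : 0 < 1 - y := by linarith
  set c := (1 - y ^ ((p - 1) / p)) ^ p * (1 - y) ^ (1 - p) with hc
  have hc0 : 0 < c := by positivity
  have e1 : energy (T := pathTree) p (wt p y) (tf p y M)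
      = ∑ k ∈ Finset.range (M + 1), ((tf p y M k : ℝ≥0) : ℝ≥0∞) ^ p * (wt p y k : ℝ≥0) := by
    refine tsum_eq_sum (f := fun k : ℕ => ((tf p y M k : ℝ≥0) : ℝ≥0∞) ^ p * (wt p y k : ℝ≥0)) ?_
    intro k hk
    have hk' : ¬ k ≤ M := by
      intro h
      exact hk (Finset.mem_range.mpr (by omega))
    have hk0 : k ≠ 0 := by omega
    simp only [tf, if_neg hk0, if_neg hk', ENNReal.coe_zero, ENNReal.zero_rpow_of_pos hp0, zero_mul]
  rw [e1, Finset.sum_range_succ']
  have e2 : ((tf p y M 0 : ℝ≥0) : ℝ≥0∞) ^ p * (wt p y 0 : ℝ≥0) = 1 := by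
    simp [tf, wt, u]
  have e3 : ∀ k ∈ Finset.range M, ((tf p y M (k + 1) : ℝ≥0) : ℝ≥0∞) ^ p * (wt p y (k + 1) : ℝ≥0)
      = ENNReal.ofReal c := by
    intro k hk
    exact term_tf hp h0 h1 M (k + 1) (Nat.succ_ne_zero k)
      (by have := Finset.mem_range.mp hk; omega)
  rw [e2, Finset.sum_congr rfl e3, Finset.sum_const, Finset.card_range, nsmul_eq_mul,
    add_comm (1 : ℝ), ENNReal.ofReal_add (by positivity) zero_le_one, ENNReal.ofReal_one,
    ENNReal.ofReal_mul (p := (M : ℝ)) (Nat.cast_nonneg M), ENNReal.ofReal_natCast]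

lemma int_tf {p : ℝ} (hp : 1 < p) {y : ℝ} (h0 : 0 < y) (h1 : y < 1) (M : ℕ) :
    ENNReal.ofReal ((M + 1) * (1 - y ^ (p - 1)))
      ≤ ∫⁻ x, I (T := pathTree) (tf p y M) x ^ p ∂(mu p y) := by
  have hp0 : 0 < p := by linarith
  obtain ⟨hQ0, hQ1⟩ := Q_bounds hp h0 h1
  have hQ2 : 0 < 1 - y ^ (p - 1) := by linarith
  rw [mu, lintegral_sum_measure]
  refine le_trans ?_ (ENNReal.sum_le_tsum (Finset.range (M + 1)))
  have e1 : ∀ k ∈ Finset.range (M + 1),
      ∫⁻ x, I (T := pathTree) (tf p y M) x ^ p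
        ∂(ENNReal.ofReal ((1 - y ^ (p - 1)) * (y ^ (p - 1)) ^ k) •
          Measure.dirac (vert (T := pathTree) k)) = ENNReal.ofReal (1 - y ^ (p - 1)) := by
    intro k hk
    have hkM : k ≤ M := by
      have := Finset.mem_range.mp hk
      omega
    rw [lintegral_smul_measure, lintegral_dirac' _ ((measurable_I _).pow_const p), I_vert,
      smul_eq_mul]
    have e2 : ((F (T := pathTree) (tf p y M) k : ℝ≥0) : ℝ≥0∞)
        = ENNReal.ofReal (((y ^ ((p - 1) / p)) ^ k)⁻¹) := by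
      rw [← F_tf hp h0 h1 M k hkM, ENNReal.ofReal_coe_nnreal]
    rw [e2, ENNReal.ofReal_rpow_of_nonneg (by positivity) hp0.le,
      ← ENNReal.ofReal_mul (by positivity)]
    congr 1
    have e3 : (((y ^ ((p - 1) / p)) ^ k)⁻¹) ^ p = ((y ^ (p - 1)) ^ k)⁻¹ := by
      rw [Real.inv_rpow (by positivity)]
      congr 1
      rw [← Real.rpow_natCast, ← Real.rpow_natCast, ← Real.rpow_mul h0.le, ← Real.rpow_mul h0.le,
        ← Real.rpow_mul h0.le]
      congr 1
      field_simp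
    rw [e3]
    have : (y ^ (p - 1)) ^ k ≠ 0 := by positivity
    field_simp
  rw [Finset.sum_congr rfl e1, Finset.sum_const, Finset.card_range, nsmul_eq_mul,
    ENNReal.ofReal_mul (by positivity)]
  refine mul_le_mul' (le_of_eq ?_) le_rfl
  rw [← Nat.cast_succ, ENNReal.ofReal_natCast]

/-- lower bound for the Hardy constant of the path -/
lemma hardy_ge {p : ℝ} (hp : 1 < p) {y : ℝ} (h0 : 0 < y) (h1 : y < 1) :
    ENNReal.ofReal ((1 - y ^ (p - 1)) / ((1 - y ^ ((p - 1) / p)) ^ p * (1 - y) ^ (1 - p)))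
      ≤ hardyConst (T := pathTree) p (wt p y) (mu p y) := by
  have hp0 : 0 < p := by linarith
  have hb : 0 < (p - 1) / p := div_pos (by linarith) (by linarith)
  have hz1 : y ^ ((p - 1) / p) < 1 := Real.rpow_lt_one h0.le h1 hb
  have hz2 : 0 < 1 - y ^ ((p - 1) / p) := by linarith
  have hy2 : 0 < 1 - y := by linarith
  obtain ⟨hQ0, hQ1⟩ := Q_bounds hp h0 h1
  set a := 1 - y ^ (p - 1) with ha
  have ha0 : 0 < a := by linarith
  set c := (1 - y ^ ((p - 1) / p)) ^ p * (1 - y) ^ (1 - p) with hc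
  have hc0 : 0 < c := by positivity
  refine le_sInf ?_
  intro C hC
  by_cases hCt : C = ⊤
  · rw [hCt]
    exact le_top
  obtain ⟨d, rfl⟩ : ∃ d : ℝ≥0, C = d := ⟨C.toNNReal, (ENNReal.coe_toNNReal hCt).symm⟩
  rw [← ENNReal.ofReal_coe_nnreal]
  refine ENNReal.ofReal_le_ofReal ?_
  rw [div_le_iff₀ hc0]
  by_contra hlt
  push Not at hlt
  obtain ⟨M, hM⟩ := exists_nat_gt ((d : ℝ) / (a - d * c))
  have h2 : ENNReal.ofReal ((M + 1) * a) ≤ ENNReal.ofReal (d * (1 + M * c)) := by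
    refine le_trans (int_tf hp h0 h1 M) (le_trans (hC (tf p y M)) (le_of_eq ?_))
    rw [energy_tf hp h0 h1, ENNReal.ofReal_mul d.coe_nonneg, ENNReal.ofReal_coe_nnreal]
  have h3 : (M + 1) * a ≤ d * (1 + M * c) := by
    rwa [ENNReal.ofReal_le_ofReal_iff (by positivity)] at h2
  rw [div_lt_iff₀ (by linarith)] at hM
  nlinarith

/-! ### the limit -/

lemma tendsto_slope_rpow (a : ℝ) :
    Tendsto (fun y : ℝ => (1 - y ^ a) / (1 - y)) (𝓝[<] 1) (𝓝 a) := by
  have h : HasDerivAt (fun y : ℝ => y ^ a) (a * (1 : ℝ) ^ (a - 1)) 1 :=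
    Real.hasDerivAt_rpow_const (Or.inl one_ne_zero)
  rw [hasDerivAt_iff_tendsto_slope, Real.one_rpow, mul_one] at h
  refine (h.mono_left (nhdsWithin_mono 1 (fun x hx => ne_of_lt hx))).congr' ?_
  filter_upwards [self_mem_nhdsWithin] with y hy
  have hy' : y < 1 := hy
  rw [slope_def_field, Real.one_rpow]
  rw [← neg_sub 1 (y ^ a), ← neg_sub 1 y, neg_div_neg_eq]

lemma limit {p : ℝ} (hp : 1 < p) :
    Tendsto (fun y : ℝ => (1 - y ^ (p - 1)) / ((1 - y ^ ((p - 1) / p)) ^ p * (1 - y) ^ (1 - p)))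
      (𝓝[<] 1) (𝓝 (p ^ p / (p - 1) ^ (p - 1))) := by
  have hp0 : 0 < p := by linarith
  have hp1 : 0 < p - 1 := by linarith
  have hb : 0 < (p - 1) / p := div_pos hp1 hp0
  have h1 := tendsto_slope_rpow (p - 1)
  have h2 := (tendsto_slope_rpow ((p - 1) / p)).rpow_const (p := p) (Or.inr hp0.le)
  have h3 := h1.div h2 (by positivity)
  have e : (p - 1) / ((p - 1) / p) ^ p = p ^ p / (p - 1) ^ (p - 1) := by
    rw [Real.div_rpow hp1.le hp0.le]
    have : (p - 1) ^ p = (p - 1) ^ (p - 1) * (p - 1) := by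
      nth_rw 4 [← Real.rpow_one (p - 1)]
      rw [← Real.rpow_add hp1]
      congr 1
      ring
    rw [this]
    have h5 : 0 < (p - 1) ^ (p - 1) := Real.rpow_pos_of_pos hp1 _
    have h6 : 0 < p ^ p := Real.rpow_pos_of_pos hp0 _
    field_simp
  rw [e] at h3
  refine h3.congr' ?_
  have hev : ∀ᶠ y : ℝ in 𝓝[<] 1, 0 < y :=
    (eventually_gt_nhds (show (0 : ℝ) < 1 by norm_num)).filter_mono nhdsWithin_le_nhds
  filter_upwards [self_mem_nhdsWithin, hev] with y hy hy0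
  have hy1 : 0 < 1 - y := by
    have : y < 1 := hy
    linarith
  have hz : 0 < 1 - y ^ ((p - 1) / p) := by
    have := Real.rpow_lt_one hy0.le hy hb
    linarith
  simp only [Pi.div_apply]
  rw [Real.div_rpow hz.le hy1.le]
  have e1 : (1 - y) ^ (1 - p) = (1 - y) / (1 - y) ^ p := by
    rw [Real.rpow_sub hy1, Real.rpow_one]
  rw [e1]
  have h5 : 0 < (1 - y) ^ p := Real.rpow_pos_of_pos hy1 _
  have h6 : 0 < (1 - y ^ ((p - 1) / p)) ^ p := Real.rpow_pos_of_pos hz _
  field_simp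

/-- every admissible constant is at least `p ^ p / (p - 1) ^ (p - 1)` -/
theorem lower {p : ℝ} (hp : 1 < p) {K : ℝ≥0∞}
    (hK : ∀ (w : pathTree.V → ℝ≥0) (μ : Measure pathTree.Pt),
      hardyConst p w μ ≤ K * isoConst p w μ) :
    ENNReal.ofReal (p ^ p / (p - 1) ^ (p - 1)) ≤ K := by
  refine le_of_tendsto ((ENNReal.continuous_ofReal.tendsto _).comp (limit hp)) ?_
  have hev : ∀ᶠ y : ℝ in 𝓝[<] 1, 0 < y :=
    (eventually_gt_nhds (show (0 : ℝ) < 1 by norm_num)).filter_mono nhdsWithin_le_nhds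
  filter_upwards [self_mem_nhdsWithin, hev] with y hy hy0
  refine le_trans (hardy_ge hp hy0 hy) (le_trans (hK _ _) ?_)
  refine le_trans (mul_le_mul' le_rfl (iso_le_one hp hy0 hy)) ?_
  rw [mul_one]

end Q279.HT
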