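import Mathlib

/-!
# Locally finite trees with pre-root: Hardy operator, capacity, isocapacitary constant
-/

open scoped ENNReal NNReal
open MeasureTheory Set

namespace Q279.HT

/-- A locally finite tree with root `o` and pre-root `o*`.  The elements of `V` are the vertices
other than `o*`; they also stand for the edges: the edge `x` joins `x` to its predecessor, which
is `parent x` if `x ≠ root` and `o*` if `x = root` (`parent root = root` is a convention). -/
structure PTree where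
  V : Type
  countable : Countable V
  root : V
  parent : V → V
  parent_root : parent root = root
  reach : ∀ x, ∃ n, parent^[n] x = root
  finite_children : ∀ x, {y | parent y = x}.Finite

namespace PTree

variable (T : PTree)

/-- The edges of the geodesic `[o*, x]`. -/
def anc (x : T.V) : Set T.V := {y | ∃ n, T.parent^[n] x = y}

/-- `A` is the set of edges of a geodesic starting at `o*`. -/
def IsGeod (A : Set T.V) : Prop :=
  (∀ x ∈ A, T.parent x ∈ A) ∧ ∀ x ∈ A, ∀ y ∈ A, x ∈ T.anc y ∨ y ∈ T.anc x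

/-- The points of `T ∪ ∂T`: a point is given by the set of edges of the geodesic from `o*` to it
(empty for `o*`, finite for the vertices, infinite for the other boundary points). -/
def Pt : Type := {A : Set T.V // T.IsGeod A}

/-- The successor set of an edge. -/
def S (α : T.V) : Set T.Pt := {x | α ∈ x.1}

/-- The topology generated by the successor sets and the singletons of the vertices. -/
instance : TopologicalSpace T.Pt :=
  TopologicalSpace.generateFrom ({U | ∃ α, U = T.S α} ∪ {U | ∃ x : T.Pt, x.1.Finite ∧ U = {x}})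

instance : MeasurableSpace T.Pt := borel _

instance : BorelSpace T.Pt := ⟨rfl⟩

variable {T}

/-- The Hardy operator. -/
noncomputable def I (φ : T.V → ℝ≥0) (x : T.Pt) : ℝ≥0∞ := ∑' α : x.1, (φ α : ℝ≥0∞)

/-- `∑ φ(α)^p π(α)` -/
noncomputable def energy (p : ℝ) (w : T.V → ℝ≥0) (φ : T.V → ℝ≥0) : ℝ≥0∞ :=
  ∑' α, (φ α : ℝ≥0∞) ^ p * w α

/-- The best constant `[μ]` of the Hardy inequality. -/
noncomputable def hardyConst (p : ℝ) (w : T.V → ℝ≥0) (μ : Measure T.Pt) : ℝ≥0∞ :=
  sInf {C | ∀ φ : T.V → ℝ≥0, ∫⁻ x, I φ x ^ p ∂μ ≤ C * energy p w φ}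

/-- The capacity. -/
noncomputable def cap (p : ℝ) (w : T.V → ℝ≥0) (A : Set T.Pt) : ℝ≥0∞ :=
  ⨅ (φ : T.V → ℝ≥0) (_ : ∀ x ∈ A, 1 ≤ I φ x), energy p w φ

/-- The isocapacitary constant `[[μ]]_c`. -/
noncomputable def isoConst (p : ℝ) (w : T.V → ℝ≥0) (μ : Measure T.Pt) : ℝ≥0∞ :=
  ⨆ (F : Finset T.V) (_ : F.Nonempty) (_ : (F : Set T.V).PairwiseDisjoint T.S),
    (∑ α ∈ F, μ (T.S α)) / cap p w (⋃ α ∈ F, T.S α)

/-! ### combinatorics -/

lemma self_mem_anc (x : T.V) : x ∈ T.anc x := ⟨0, rfl⟩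

lemma parent_mem_anc (x : T.V) : T.parent x ∈ T.anc x := ⟨1, rfl⟩

lemma anc_trans {x y z : T.V} (hy : y ∈ T.anc x) (hz : z ∈ T.anc y) : z ∈ T.anc x := by
  obtain ⟨n, rfl⟩ := hy
  obtain ⟨m, rfl⟩ := hz
  exact ⟨m + n, by rw [Function.iterate_add_apply]⟩

lemma anc_eq (x : T.V) : T.anc x = insert x (T.anc (T.parent x)) := by
  ext y
  constructor
  · rintro ⟨n, rfl⟩
    cases n with
    | zero => exact Or.inl rfl
    | succ n => exact Or.inr ⟨n, by rw [Function.iterate_succ_apply]⟩
  · rintro (rfl | ⟨n, rfl⟩)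
    · exact self_mem_anc _
    · exact ⟨n + 1, by rw [Function.iterate_succ_apply]⟩

lemma iterate_root (n : ℕ) : T.parent^[n] T.root = T.root := by
  induction n with
  | zero => rfl
  | succ n ih => rw [Function.iterate_succ_apply, T.parent_root, ih]

lemma anc_root : T.anc T.root = {T.root} := by
  ext y
  constructor
  · rintro ⟨n, rfl⟩
    exact iterate_root n
  · rintro rfl
    exact self_mem_anc _

open Classical in
noncomputable def depth (x : T.V) : ℕ := Nat.find (T.reach x)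

lemma depth_spec (x : T.V) : T.parent^[depth x] x = T.root := by
  classical
  exact Nat.find_spec (T.reach x)

lemma depth_le {x : T.V} {n : ℕ} (h : T.parent^[n] x = T.root) : depth x ≤ n := by
  classical
  exact Nat.find_min' (T.reach x) h

lemma depth_root : depth T.root = 0 := Nat.le_zero.mp (depth_le rfl)

lemma depth_eq_zero {x : T.V} (h : depth x = 0) : x = T.root := by
  have := depth_spec x
  rw [h] at this
  exact this

lemma depth_parent {x : T.V} (hx : x ≠ T.root) : depth x = depth (T.parent x) + 1 := by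
  have h1 : depth x ≤ depth (T.parent x) + 1 := depth_le (by
    rw [Function.iterate_succ_apply]
    exact depth_spec _)
  obtain ⟨n, hn⟩ : ∃ n, depth x = n + 1 :=
    Nat.exists_eq_succ_of_ne_zero (fun h => hx (depth_eq_zero h))
  have h2 : depth (T.parent x) ≤ n := depth_le (by
    rw [← Function.iterate_succ_apply, Nat.succ_eq_add_one, ← hn]
    exact depth_spec _)
  omega

theorem ind {P : T.V → Prop} (h0 : P T.root)
    (h1 : ∀ x, x ≠ T.root → P (T.parent x) → P x) : ∀ x, P x := by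
  have key : ∀ n : ℕ, ∀ x : T.V, depth x = n → P x := by
    intro n
    induction n with
    | zero =>
      intro x hx
      rw [depth_eq_zero hx]
      exact h0
    | succ n ih =>
      intro x hx
      have hxr : x ≠ T.root := by
        rintro rfl
        rw [depth_root] at hx
        omega
      exact h1 x hxr (ih _ (by have := depth_parent hxr; omega))
  exact fun x => key _ x rfl

lemma depth_le_of_mem_anc {x y : T.V} (h : y ∈ T.anc x) : depth y ≤ depth x := by
  revert y
  refine ind (P := fun x => ∀ {y}, y ∈ T.anc x → depth y ≤ depth x) ?_ ?_ x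
  · intro y hy
    rw [anc_root] at hy
    rw [mem_singleton_iff.mp hy]
  · intro x hx ih y hy
    rw [anc_eq] at hy
    rcases hy with rfl | hy
    · exact le_rfl
    · have := ih hy
      have := depth_parent hx
      omega

lemma notMem_anc_parent {x : T.V} (hx : x ≠ T.root) : x ∉ T.anc (T.parent x) := by
  intro h
  have := depth_le_of_mem_anc h
  have := depth_parent hx
  omega

/-- the values of the Hardy operator at the vertices -/
noncomputable def F (φ : T.V → ℝ≥0) (x : T.V) : ℝ≥0 :=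
  ∑ k ∈ Finset.range (depth x + 1), φ (T.parent^[k] x)

lemma F_root (φ : T.V → ℝ≥0) : F φ T.root = φ T.root := by
  simp [F, depth_root]

lemma F_step (φ : T.V → ℝ≥0) {x : T.V} (hx : x ≠ T.root) :
    F φ x = F φ (T.parent x) + φ x := by
  rw [F, depth_parent hx, Finset.sum_range_succ']
  simp only [Function.iterate_succ_apply, Function.iterate_zero, id]
  rfl

lemma tsum_anc (φ : T.V → ℝ≥0) (x : T.V) :
    ∑' α : T.anc x, (φ α : ℝ≥0∞) = F φ x := by
  refine ind (P := fun x => ∑' α : T.anc x, (φ α : ℝ≥0∞) = F φ x) ?_ ?_ x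
  · rw [anc_root, F_root]
    rw [tsum_singleton T.root (fun α => (φ α : ℝ≥0∞))]
  · intro x hx ih
    rw [anc_eq, insert_eq, F_step φ hx]
    rw [Summable.tsum_union_disjoint (f := fun α : T.V => (φ α : ℝ≥0∞))
      (disjoint_singleton_left.mpr (notMem_anc_parent hx)) ENNReal.summable ENNReal.summable]
    rw [ih, tsum_singleton x (fun α => (φ α : ℝ≥0∞)), ENNReal.coe_add, add_comm]

lemma anc_subset {A : T.Pt} {α : T.V} (h : α ∈ A.1) : T.anc α ⊆ A.1 := by
  rintro _ ⟨n, rfl⟩
  induction n with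
  | zero => exact h
  | succ n ih =>
    rw [Function.iterate_succ_apply']
    exact A.2.1 _ ih

lemma le_I_of_mem (φ : T.V → ℝ≥0) {A : T.Pt} {α : T.V} (h : α ∈ A.1) :
    (F φ α : ℝ≥0∞) ≤ I φ A := by
  rw [← tsum_anc, I]
  rw [tsum_subtype (T.anc α) (fun α => (φ α : ℝ≥0∞)), tsum_subtype A.1 (fun α => (φ α : ℝ≥0∞))]
  exact ENNReal.tsum_le_tsum (indicator_le_indicator_of_subset (anc_subset h) (fun _ => zero_le))

lemma exists_top {A : T.Pt} (s : Finset T.V) (hs : ∀ x ∈ s, x ∈ A.1) (hne : s.Nonempty) :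
    ∃ α ∈ A.1, ∀ x ∈ s, x ∈ T.anc α := by
  classical
  induction s using Finset.induction_on with
  | empty => exact absurd hne Finset.not_nonempty_empty
  | insert a s ha ih =>
    rcases s.eq_empty_or_nonempty with rfl | hne'
    · refine ⟨a, hs a (by simp), ?_⟩
      intro x hx
      rw [show x = a by simpa using hx]
      exact self_mem_anc a
    · obtain ⟨α, hα, h⟩ := ih (fun x hx => hs x (Finset.mem_insert_of_mem hx)) hne'
      rcases A.2.2 a (hs a (by simp)) α hα with h1 | h1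
      · refine ⟨α, hα, ?_⟩
        intro x hx
        rcases Finset.mem_insert.mp hx with rfl | hx
        · exact h1
        · exact h x hx
      · refine ⟨a, hs a (by simp), ?_⟩
        intro x hx
        rcases Finset.mem_insert.mp hx with rfl | hx
        · exact self_mem_anc _
        · exact anc_trans h1 (h x hx)

lemma exists_mem_lt (φ : T.V → ℝ≥0) {A : T.Pt} {t : ℝ≥0∞} (h : t < I φ A) :
    ∃ α ∈ A.1, t < F φ α := by
  rw [I, ENNReal.tsum_eq_iSup_sum, lt_iSup_iff] at h
  obtain ⟨s, hs⟩ := h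
  rcases s.eq_empty_or_nonempty with rfl | hne
  · simp at hs
  classical
  obtain ⟨α, hα, h⟩ := exists_top (A := A) (s.image Subtype.val)
    (by
      intro x hx
      obtain ⟨y, _, rfl⟩ := Finset.mem_image.mp hx
      exact y.2) (hne.image _)
  refine ⟨α, hα, lt_of_lt_of_le hs ?_⟩
  rw [← tsum_anc]
  have e1 : ∑ a ∈ s, (φ (a : T.V) : ℝ≥0∞)
      = ∑ a ∈ s.image Subtype.val, (φ a : ℝ≥0∞) := by
    rw [Finset.sum_image]
    intro x _ y _ hxy
    exact Subtype.ext hxy
  rw [e1, tsum_subtype (T.anc α) (fun α => (φ α : ℝ≥0∞))]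
  refine le_trans (le_of_eq ?_) (ENNReal.sum_le_tsum (s.image Subtype.val))
  refine Finset.sum_congr rfl ?_
  intro x hx
  rw [indicator_of_mem (h x hx)]

/-- the value at the lower endpoint of the edge -/
noncomputable def Fm (φ : T.V → ℝ≥0) (x : T.V) : ℝ≥0 :=
  open Classical in if x = T.root then 0 else F φ (T.parent x)

lemma F_eq (φ : T.V → ℝ≥0) (x : T.V) : F φ x = Fm φ x + φ x := by
  by_cases hx : x = T.root
  · subst hx
    simp [Fm, F_root]
  · simp [Fm, hx, F_step φ hx]

/-- the edges which cross the level `t` -/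
def cross (φ : T.V → ℝ≥0) (t : ℝ≥0∞) : Set T.V := {α | (Fm φ α : ℝ≥0∞) ≤ t ∧ t < F φ α}

lemma exists_cross (φ : T.V → ℝ≥0) {t : ℝ≥0∞} (x : T.V) (h : t < F φ x) :
    ∃ α ∈ T.anc x, α ∈ cross φ t := by
  revert h
  refine ind (P := fun x => t < F φ x → ∃ α ∈ T.anc x, α ∈ cross φ t) ?_ ?_ x
  · intro h
    exact ⟨T.root, self_mem_anc _, by simp [Fm], h⟩
  · intro x hx ih h
    by_cases h' : t < F φ (T.parent x)
    · obtain ⟨α, h1, h2⟩ := ih h'
      exact ⟨α, anc_trans (parent_mem_anc x) h1, h2⟩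
    · refine ⟨x, self_mem_anc _, ?_, h⟩
      simp only [Fm, if_neg hx]
      exact not_lt.mp h'

lemma F_mono (φ : T.V → ℝ≥0) {x y : T.V} (h : y ∈ T.anc x) : F φ y ≤ F φ x := by
  have h1 := tsum_anc φ x
  have h2 := tsum_anc φ y
  have h3 : ((F φ y : ℝ≥0) : ℝ≥0∞) ≤ F φ x := by
    rw [← h1, ← h2, tsum_subtype (T.anc x) (fun α => (φ α : ℝ≥0∞)),
      tsum_subtype (T.anc y) (fun α => (φ α : ℝ≥0∞))]
    exact ENNReal.tsum_le_tsum (indicator_le_indicator_of_subset
      (fun z hz => anc_trans h hz) (fun _ => zero_le))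
  exact_mod_cast h3

lemma cross_disjoint (φ : T.V → ℝ≥0) (t : ℝ≥0∞) : (cross φ t).PairwiseDisjoint T.S := by
  have key : ∀ α ∈ cross φ t, ∀ β ∈ cross φ t, α ∈ T.anc β → α = β := by
    intro α hα β hβ h
    by_contra hne
    rw [anc_eq] at h
    rcases h with h | h
    · exact hne h
    have hβr : β ≠ T.root := by
      rintro rfl
      rw [T.parent_root, anc_root] at h
      exact hne h
    have h1 := F_mono φ h
    have h2 : (Fm φ β : ℝ≥0∞) ≤ t := hβ.1
    simp only [Fm, if_neg hβr] at h2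
    have h3 : t < F φ α := hα.2
    exact absurd (lt_of_lt_of_le h3 (le_trans (by exact_mod_cast h1) h2)) (lt_irrefl _)
  intro α hα β hβ hne
  refine Set.disjoint_left.mpr ?_
  intro x hx hy
  rcases x.2.2 α hx β hy with h | h
  · exact hne (key α hα β hβ h)
  · exact hne (key β hβ α hα h).symm

lemma isOpen_S (α : T.V) : IsOpen (T.S α) :=
  TopologicalSpace.isOpen_generateFrom_of_mem (Or.inl ⟨α, rfl⟩)

lemma lt_I_eq (φ : T.V → ℝ≥0) (t : ℝ≥0∞) :
    {x : T.Pt | t < I φ x} = ⋃ α ∈ cross φ t, T.S α := by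
  ext x
  simp only [mem_ofPred_eq, mem_iUnion, exists_prop]
  constructor
  · intro h
    obtain ⟨α, hα, h1⟩ := exists_mem_lt φ h
    obtain ⟨β, hβ, h2⟩ := exists_cross φ α h1
    exact ⟨β, h2, anc_subset hα hβ⟩
  · rintro ⟨α, hα, h⟩
    exact lt_of_lt_of_le hα.2 (le_I_of_mem φ h)

lemma measurable_I (φ : T.V → ℝ≥0) : Measurable (I φ : T.Pt → ℝ≥0∞) := by
  refine measurable_of_Ioi ?_
  intro t
  have : (I φ : T.Pt → ℝ≥0∞) ⁻¹' Ioi t = ⋃ α ∈ cross φ t, T.S α := lt_I_eq φ t
  rw [this]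
  exact (isOpen_biUnion (fun α _ => isOpen_S α)).measurableSet

/-! ### capacity and level sets -/

lemma cap_le (p : ℝ) (w : T.V → ℝ≥0) {A : Set T.Pt} (φ : T.V → ℝ≥0)
    (h : ∀ x ∈ A, 1 ≤ I φ x) : cap p w A ≤ energy p w φ :=
  iInf₂_le φ h

lemma cap_lt_top {p : ℝ} (hp : 0 < p) (w : T.V → ℝ≥0) (F : Finset T.V) :
    cap p w (⋃ α ∈ F, T.S α) < ⊤ := by
  classical
  refine lt_of_le_of_lt (cap_le p w (fun x => if x = T.root then 1 else 0) ?_) ?_
  · intro x hx
    simp only [mem_iUnion, exists_prop] at hx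
    obtain ⟨α, _, hα⟩ := hx
    have hr : T.root ∈ x.1 := anc_subset hα ⟨depth α, depth_spec α⟩
    have := le_I_of_mem (fun x => if x = T.root then (1 : ℝ≥0) else 0) hr
    rw [F_root] at this
    simpa using this
  · rw [energy, tsum_eq_single T.root]
    · simp
    · intro b hb
      simp [hb, ENNReal.zero_rpow_of_pos hp]

lemma sum_le_iso {p : ℝ} (hp : 0 < p) {w : T.V → ℝ≥0} {μ : Measure T.Pt} (F : Finset T.V)
    (hF : (F : Set T.V).PairwiseDisjoint T.S) (hC : isoConst p w μ ≠ ⊤) :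
    ∑ α ∈ F, μ (T.S α) ≤ isoConst p w μ * cap p w (⋃ α ∈ F, T.S α) := by
  rcases F.eq_empty_or_nonempty with rfl | hne
  · simp
  have h1 : (∑ α ∈ F, μ (T.S α)) / cap p w (⋃ α ∈ F, T.S α) ≤ isoConst p w μ :=
    le_iSup₂_of_le F hne (le_iSup_of_le hF le_rfl)
  rwa [ENNReal.div_le_iff_le_mul (Or.inr hC) (Or.inl (cap_lt_top hp w F).ne)] at h1

/-- The level set estimate. -/
lemma measure_level_le {p : ℝ} (hp : 0 < p) {w : T.V → ℝ≥0} {μ : Measure T.Pt}
    (hC : isoConst p w μ ≠ ⊤) (φ ψ : T.V → ℝ≥0) (t : ℝ≥0∞)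
    (h : ∀ α ∈ cross φ t, 1 ≤ F ψ α) :
    μ {x | t < I φ x} ≤ isoConst p w μ * energy p w ψ := by
  classical
  have := T.countable
  rw [lt_I_eq, biUnion_eq_iUnion]
  refine le_trans (measure_iUnion_le _) ?_
  rw [ENNReal.tsum_eq_iSup_sum]
  refine iSup_le ?_
  intro s
  have e1 : ∑ a ∈ s, μ (T.S a.1) = ∑ a ∈ s.image Subtype.val, μ (T.S a) := by
    rw [Finset.sum_image]
    intro x _ y _ hxy
    exact Subtype.ext hxy
  rw [e1]
  refine le_trans (sum_le_iso hp _ ?_ hC) ?_
  · refine (cross_disjoint φ t).subset ?_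
    intro x hx
    simp only [Finset.coe_image, mem_image, Finset.mem_coe] at hx
    obtain ⟨y, _, rfl⟩ := hx
    exact y.2
  · gcongr
    refine cap_le p w ψ ?_
    intro x hx
    simp only [mem_iUnion, Finset.mem_image, exists_prop] at hx
    obtain ⟨_, ⟨y, _, rfl⟩, hx⟩ := hx
    refine le_trans ?_ (le_I_of_mem ψ hx)
    exact_mod_cast h _ y.2

end PTree

end Q279.HT
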