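import Pool.Agent.Q279.HT.Tree

open scoped ENNReal NNReal
open MeasureTheory Set

namespace Q279.HT

/-! ### the one-dimensional estimate -/

lemma K_eq {p : ℝ} (hp : 1 < p) :
    p * (p / (p - 1)) ^ (p - 1) = p ^ p / (p - 1) ^ (p - 1) := by
  have h0 : 0 < p := by linarith
  have h1 : 0 < p - 1 := by linarith
  rw [Real.div_rpow h0.le h1.le, ← mul_div_assoc]
  congr 1
  nth_rw 1 [← Real.rpow_one p]
  rw [← Real.rpow_add h0]
  congr 1
  ring

lemma lintegral_rpow_Ioc {a c r : ℝ} (hr : 0 ≤ r) (ha : 0 ≤ a) (hac : a ≤ c) :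
    ∫⁻ x in Ioc a c, ENNReal.ofReal (x ^ r) = ENNReal.ofReal ((c ^ (r + 1) - a ^ (r + 1)) / (r + 1)) := by
  rw [← ofReal_integral_eq_lintegral_ofReal]
  · rw [← intervalIntegral.integral_of_le hac, integral_rpow (Or.inl (by linarith))]
  · have := (intervalIntegral.intervalIntegrable_rpow' (a := a) (b := c) (r := r) (by linarith))
    rw [intervalIntegrable_iff_integrableOn_Ioc_of_le hac] at this
    exact this
  · refine (ae_restrict_iff' measurableSet_Ioc).mpr (Filter.Eventually.of_forall ?_)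
    intro x hx
    exact Real.rpow_nonneg (by linarith [hx.1]) r

lemma lintegral_Ioi_rpow {τ s : ℝ} (hτ : 0 < τ) (hs : 0 < s) :
    ∫⁻ x in Ioi τ, ENNReal.ofReal (x ^ (-1 - s)) = ENNReal.ofReal (τ ^ (-s) / s) := by
  rw [← ofReal_integral_eq_lintegral_ofReal]
  · rw [integral_Ioi_rpow_of_lt (by linarith) hτ]
    congr 1
    rw [show -1 - s + 1 = -s by ring]
    field_simp
  · exact integrableOn_Ioi_rpow_of_lt (by linarith) hτ
  · refine (ae_restrict_iff' measurableSet_Ioi).mpr (Filter.Eventually.of_forall ?_)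
    intro x hx
    exact Real.rpow_nonneg (hτ.le.trans (le_of_lt hx)) _

/-- the kernel -/
noncomputable def g (q t τ : ℝ) : ℝ≥0∞ :=
  if τ ≤ t then ENNReal.ofReal (q * t ^ (-q) * τ ^ (q - 1)) else 0

lemma measurable_g (q : ℝ) : Measurable (Function.uncurry (g q)) := by
  unfold g Function.uncurry
  refine Measurable.ite (measurableSet_le measurable_snd measurable_fst) ?_ measurable_const
  fun_prop

lemma step1 {q : ℝ} (hq : 1 < q) {a b t : ℝ} (ha : 0 ≤ a) (hab : a ≤ b) (ht : 0 < t) :
    ENNReal.ofReal ((min b t / t) ^ q - (min a t / t) ^ q) ≤ ∫⁻ τ in Ioc a b, g q t τ := by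
  rcases le_or_gt t a with h | h
  · rw [min_eq_right h, min_eq_right (h.trans hab), sub_self, ENNReal.ofReal_zero]
    exact zero_le
  · rw [min_eq_left h.le]
    set c := min b t with hc
    have hac : a ≤ c := le_min hab h.le
    have hct : c ≤ t := min_le_right _ _
    have hcb : c ≤ b := min_le_left _ _
    have e1 : ∫⁻ τ in Ioc a c, ENNReal.ofReal (q * t ^ (-q) * τ ^ (q - 1))
        = ENNReal.ofReal ((c / t) ^ q - (a / t) ^ q) := by
      have h1 : ∀ τ : ℝ, ENNReal.ofReal (q * t ^ (-q) * τ ^ (q - 1))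
          = ENNReal.ofReal (q * t ^ (-q)) * ENNReal.ofReal (τ ^ (q - 1)) := by
        intro τ
        exact ENNReal.ofReal_mul (mul_nonneg (by linarith) (Real.rpow_nonneg ht.le _))
      simp_rw [h1]
      rw [lintegral_const_mul' _ _ ENNReal.ofReal_ne_top,
        lintegral_rpow_Ioc (by linarith) ha hac,
        ← ENNReal.ofReal_mul (mul_nonneg (by linarith) (Real.rpow_nonneg ht.le _))]
      congr 1
      rw [sub_add_cancel, Real.div_rpow (ha.trans hac) ht.le, Real.div_rpow ha ht.le,
        Real.rpow_neg ht.le]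
      have : t ^ q ≠ 0 := (Real.rpow_pos_of_pos ht q).ne'
      have : q ≠ 0 := by linarith
      field_simp
    rw [← e1]
    have h2 : ∫⁻ τ in Ioc a c, ENNReal.ofReal (q * t ^ (-q) * τ ^ (q - 1))
        = ∫⁻ τ in Ioc a c, g q t τ := by
      refine setLIntegral_congr_fun measurableSet_Ioc ?_
      intro τ hτ
      simp only [g, if_pos (hτ.2.trans hct)]
    rw [h2]
    exact lintegral_mono_set (Ioc_subset_Ioc_right hcb)

lemma step2 {p : ℝ} (hp : 1 < p) {a b : ℝ} (f : ℝ → ℝ≥0∞) (hf : Measurable f) :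
    (∫⁻ τ in Ioc a b, f τ) ^ p ≤ (∫⁻ τ in Ioc a b, f τ ^ p) * ENNReal.ofReal (b - a) ^ (p - 1) := by
  have h0 : 0 < p := by linarith
  have hpq : p.HolderConjugate (p / (p - 1)) := by
    have := Real.HolderConjugate.conjExponent hp
    simpa [Real.conjExponent] using this
  have h := ENNReal.lintegral_mul_le_Lp_mul_Lq (volume.restrict (Ioc a b)) hpq
    (f := f) (g := fun _ => 1) hf.aemeasurable aemeasurable_const
  simp only [ENNReal.one_rpow, lintegral_const, one_mul, Measure.restrict_apply, MeasurableSet.univ,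
    univ_inter, Real.volume_Ioc] at h
  have h1 : (∫⁻ τ in Ioc a b, f τ) ≤
      (∫⁻ τ in Ioc a b, f τ ^ p) ^ (1 / p) * ENNReal.ofReal (b - a) ^ (1 / (p / (p - 1))) := by
    refine le_trans (le_of_eq ?_) h
    refine lintegral_congr ?_
    intro τ
    simp
  refine le_trans (ENNReal.rpow_le_rpow h1 h0.le) (le_of_eq ?_)
  rw [ENNReal.mul_rpow_of_nonneg _ _ h0.le, ← ENNReal.rpow_mul, ← ENNReal.rpow_mul]
  have e1 : 1 / p * p = 1 := by field_simp
  have e2 : 1 / (p / (p - 1)) * p = p - 1 := by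
    have : p - 1 ≠ 0 := by linarith
    field_simp
  rw [e1, e2, ENNReal.rpow_one]

lemma step4 {p : ℝ} (hp : 1 < p) {τ : ℝ} (hτ : 0 < τ) :
    ∫⁻ t in Ioi (0 : ℝ), ENNReal.ofReal (p * t ^ (p - 1)) * g (p / (p - 1)) t τ ^ p
      ≤ ENNReal.ofReal (p ^ p / (p - 1) ^ (p - 1)) := by
  have h0 : 0 < p := by linarith
  have h1 : 0 < p - 1 := by linarith
  set q := p / (p - 1) with hq
  have hq0 : 0 < q := div_pos h0 h1
  have hqp : q * p = q + p := by
    rw [hq]
    field_simp
    ring
  have e0 : ∀ t : ℝ, ENNReal.ofReal (p * t ^ (p - 1)) * g q t τ ^ p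
      = (Ici τ).indicator (fun t => ENNReal.ofReal (p * q ^ p * τ ^ q) *
          ENNReal.ofReal (t ^ (-1 - q))) t := by
    intro t
    by_cases h : τ ≤ t
    · have ht : 0 < t := lt_of_lt_of_le hτ h
      rw [indicator_of_mem (by exact h)]
      simp only [g, if_pos h]
      rw [ENNReal.ofReal_rpow_of_nonneg (by positivity) h0.le,
        ← ENNReal.ofReal_mul (by positivity), ← ENNReal.ofReal_mul (by positivity)]
      congr 1
      rw [Real.mul_rpow (by positivity) (by positivity), Real.mul_rpow (by positivity) (by positivity),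
        ← Real.rpow_mul ht.le, ← Real.rpow_mul hτ.le]
      have e1 : (q - 1) * p = q := by linarith
      have e2 : t ^ (p - 1) * t ^ (-q * p) = t ^ (-1 - q) := by
        rw [← Real.rpow_add ht]
        congr 1
        linarith
      rw [e1, ← e2]
      ring
    · rw [indicator_of_notMem (by exact h)]
      simp only [g, if_neg h]
      rw [ENNReal.zero_rpow_of_pos h0, mul_zero]
  simp_rw [e0]
  refine le_trans (lintegral_mono' (Measure.restrict_le_self) le_rfl) ?_
  rw [lintegral_indicator measurableSet_Ici, setLIntegral_congr Ioi_ae_eq_Ici.symm,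
    lintegral_const_mul' _ _ ENNReal.ofReal_ne_top, lintegral_Ioi_rpow hτ hq0,
    ← ENNReal.ofReal_mul (by positivity)]
  refine ENNReal.ofReal_le_ofReal (le_of_eq ?_)
  rw [← K_eq hp, ← hq, Real.rpow_neg hτ.le]
  have h3 : τ ^ q ≠ 0 := (Real.rpow_pos_of_pos hτ q).ne'
  have h4 : q ^ p = q ^ (p - 1) * q := by
    nth_rw 3 [← Real.rpow_one q]
    rw [← Real.rpow_add hq0]
    congr 1
    ring
  rw [h4]
  field_simp

theorem J_le {p : ℝ} (hp : 1 < p) {a b : ℝ} (ha : 0 ≤ a) (hab : a ≤ b) :
    ∫⁻ t in Ioi (0 : ℝ), ENNReal.ofReal (p * t ^ (p - 1)) *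
        ENNReal.ofReal ((min b t / t) ^ (p / (p - 1)) - (min a t / t) ^ (p / (p - 1))) ^ p
      ≤ ENNReal.ofReal (p ^ p / (p - 1) ^ (p - 1)) * ENNReal.ofReal (b - a) ^ p := by
  have h0 : 0 < p := by linarith
  have h1 : 0 < p - 1 := by linarith
  set q := p / (p - 1) with hq
  have hq1 : 1 < q := by
    rw [hq, lt_div_iff₀ h1]
    linarith
  have hmg : ∀ t, Measurable (g q t) := fun t =>
    (measurable_g q).comp (measurable_const.prodMk measurable_id)
  calc ∫⁻ t in Ioi (0 : ℝ), ENNReal.ofReal (p * t ^ (p - 1)) *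
        ENNReal.ofReal ((min b t / t) ^ q - (min a t / t) ^ q) ^ p
      ≤ ∫⁻ t in Ioi (0 : ℝ), ENNReal.ofReal (b - a) ^ (p - 1) *
          ∫⁻ τ in Ioc a b, ENNReal.ofReal (p * t ^ (p - 1)) * g q t τ ^ p := by
        refine setLIntegral_mono' measurableSet_Ioi ?_
        intro t ht
        rw [lintegral_const_mul' _ _ ENNReal.ofReal_ne_top]
        calc ENNReal.ofReal (p * t ^ (p - 1)) *
              ENNReal.ofReal ((min b t / t) ^ q - (min a t / t) ^ q) ^ p
            ≤ ENNReal.ofReal (p * t ^ (p - 1)) * (∫⁻ τ in Ioc a b, g q t τ) ^ p := by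
              gcongr
              exact step1 hq1 ha hab ht
          _ ≤ ENNReal.ofReal (p * t ^ (p - 1)) * ((∫⁻ τ in Ioc a b, g q t τ ^ p) *
                ENNReal.ofReal (b - a) ^ (p - 1)) := by
              gcongr
              exact step2 hp _ (hmg t)
          _ = _ := by ring
    _ = ENNReal.ofReal (b - a) ^ (p - 1) * ∫⁻ τ in Ioc a b, ∫⁻ t in Ioi (0 : ℝ),
          ENNReal.ofReal (p * t ^ (p - 1)) * g q t τ ^ p := by
        rw [lintegral_const_mul' _ _ (ENNReal.rpow_ne_top_of_nonneg h1.le ENNReal.ofReal_ne_top)]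
        congr 1
        refine lintegral_lintegral_swap ?_
        refine Measurable.aemeasurable ?_
        unfold Function.uncurry
        refine Measurable.mul (by fun_prop) ?_
        exact (measurable_g q).pow_const p
    _ ≤ ENNReal.ofReal (b - a) ^ (p - 1) * ∫⁻ τ in Ioc a b,
          ENNReal.ofReal (p ^ p / (p - 1) ^ (p - 1)) := by
        refine mul_le_mul' le_rfl ?_
        refine setLIntegral_mono' measurableSet_Ioc ?_
        intro τ hτ
        exact step4 hp (lt_of_le_of_lt ha hτ.1)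
    _ = _ := by
        rw [lintegral_const, Measure.restrict_apply MeasurableSet.univ, univ_inter, Real.volume_Ioc,
          mul_comm (ENNReal.ofReal (b - a) ^ (p - 1)), mul_assoc]
        congr 1
        rcases eq_or_lt_of_le hab with h | h
        · rw [← h, sub_self, ENNReal.ofReal_zero, ENNReal.zero_rpow_of_pos h0, zero_mul]
        · nth_rw 1 [← ENNReal.rpow_one (ENNReal.ofReal (b - a))]
          rw [← ENNReal.rpow_add _ _ (ENNReal.ofReal_pos.mpr (by linarith)).ne' ENNReal.ofReal_ne_top]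
          congr 1
          ring

/-! ### the upper bound -/

namespace PTree

variable {T : PTree}

/-- the test function for the level set -/
noncomputable def psi (q : ℝ) (φ : T.V → ℝ≥0) (t : ℝ) (x : T.V) : ℝ≥0 :=
  Real.toNNReal ((min (F φ x : ℝ) t / t) ^ q - (min (Fm φ x : ℝ) t / t) ^ q)

lemma Fm_le (φ : T.V → ℝ≥0) (x : T.V) : (Fm φ x : ℝ) ≤ F φ x := by
  rw [F_eq φ x]
  push_cast
  linarith [(φ x).2]

lemma psi_nonneg {q : ℝ} (hq : 0 < q) (φ : T.V → ℝ≥0) {t : ℝ} (ht : 0 < t) (x : T.V) :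
    0 ≤ (min (F φ x : ℝ) t / t) ^ q - (min (Fm φ x : ℝ) t / t) ^ q := by
  have h1 : 0 ≤ min (Fm φ x : ℝ) t := le_min (Fm φ x).2 ht.le
  have h2 : min (Fm φ x : ℝ) t ≤ min (F φ x : ℝ) t := min_le_min_right _ (Fm_le φ x)
  have : (min (Fm φ x : ℝ) t / t) ^ q ≤ (min (F φ x : ℝ) t / t) ^ q := by
    gcongr
  linarith

lemma F_psi {q : ℝ} (hq : 0 < q) (φ : T.V → ℝ≥0) {t : ℝ} (ht : 0 < t) (x : T.V) :
    (F (psi q φ t) x : ℝ) = (min (F φ x : ℝ) t / t) ^ q := by
  refine ind (P := fun x => (F (psi q φ t) x : ℝ) = (min (F φ x : ℝ) t / t) ^ q) ?_ ?_ x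
  · rw [F_root, psi, Real.coe_toNNReal _ (psi_nonneg hq φ ht _)]
    simp [Fm, min_eq_left ht.le, Real.zero_rpow hq.ne']
  · intro x hx ih
    rw [F_step _ hx]
    push_cast
    rw [ih, psi, Real.coe_toNNReal _ (psi_nonneg hq φ ht _)]
    simp only [Fm, if_neg hx]
    ring

lemma level_le {p : ℝ} (hp : 1 < p) {w : T.V → ℝ≥0} {μ : Measure T.Pt}
    (hC : isoConst p w μ ≠ ⊤) (φ : T.V → ℝ≥0) {t : ℝ} (ht : 0 < t) :
    μ {x | ENNReal.ofReal t < I φ x} ≤ isoConst p w μ * energy p w (psi (p / (p - 1)) φ t) := by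
  have h0 : 0 < p := by linarith
  have h1 : 0 < p - 1 := by linarith
  refine measure_level_le h0 hC φ _ _ ?_
  intro α hα
  have h2 : t < F φ α := by
    have := hα.2
    rw [← ENNReal.ofReal_coe_nnreal] at this
    exact (ENNReal.ofReal_lt_ofReal_iff_of_nonneg ht.le).mp this
  have h3 := F_psi (div_pos h0 h1) φ ht α
  rw [min_eq_right h2.le, div_self ht.ne', Real.one_rpow] at h3
  exact_mod_cast h3.ge

lemma energy_int {p : ℝ} (hp : 1 < p) (w φ : T.V → ℝ≥0) :
    ∫⁻ t in Ioi (0 : ℝ), ENNReal.ofReal (p * t ^ (p - 1)) * energy p w (psi (p / (p - 1)) φ t)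
      ≤ ENNReal.ofReal (p ^ p / (p - 1) ^ (p - 1)) * energy p w φ := by
  have := T.countable
  have h0 : 0 < p := by linarith
  have h1 : 0 < p - 1 := by linarith
  simp only [energy, ← ENNReal.tsum_mul_left]
  rw [lintegral_tsum]
  · refine ENNReal.tsum_le_tsum ?_
    intro α
    have e1 : ∀ t : ℝ, ENNReal.ofReal (p * t ^ (p - 1)) *
        ((psi (p / (p - 1)) φ t α : ℝ≥0∞) ^ p * w α)
        = (ENNReal.ofReal (p * t ^ (p - 1)) *
          ENNReal.ofReal ((min (F φ α : ℝ) t / t) ^ (p / (p - 1))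
            - (min (Fm φ α : ℝ) t / t) ^ (p / (p - 1))) ^ p) * w α := by
      intro t
      rw [mul_assoc]
      rfl
    simp_rw [e1]
    rw [lintegral_mul_const' _ _ ENNReal.coe_ne_top, ← mul_assoc]
    gcongr
    refine le_trans (J_le hp (Fm φ α).2 (Fm_le φ α)) (le_of_eq ?_)
    congr 2
    rw [F_eq φ α]
    push_cast
    rw [add_sub_cancel_left, ENNReal.ofReal_coe_nnreal]
  · intro α
    unfold psi
    refine Measurable.aemeasurable ?_
    refine Measurable.mul (by fun_prop) (Measurable.mul_const ?_ _)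
    refine Measurable.pow_const ?_ _
    refine measurable_coe_nnreal_ennreal.comp (measurable_real_toNNReal.comp ?_)
    fun_prop

/-- the truncated Hardy operator satisfies the inequality -/
lemma hardy_trunc {p : ℝ} (hp : 1 < p) {w : T.V → ℝ≥0} {μ : Measure T.Pt}
    (hC : isoConst p w μ ≠ ⊤) (φ : T.V → ℝ≥0) (N : ℕ) :
    ∫⁻ x, min (I φ x) N ^ p ∂μ
      ≤ ENNReal.ofReal (p ^ p / (p - 1) ^ (p - 1)) * isoConst p w μ * energy p w φ := by
  have h0 : 0 < p := by linarith
  have hne : ∀ x, min (I φ x) (N : ℝ≥0∞) ≠ ⊤ := fun x =>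
    ne_top_of_le_ne_top (ENNReal.natCast_ne_top N) (min_le_right _ _)
  have e1 : ∀ x, min (I φ x) (N : ℝ≥0∞) ^ p
      = ENNReal.ofReal ((min (I φ x) (N : ℝ≥0∞)).toReal ^ p) := by
    intro x
    rw [← ENNReal.ofReal_rpow_of_nonneg ENNReal.toReal_nonneg h0.le, ENNReal.ofReal_toReal (hne x)]
  simp_rw [e1]
  rw [lintegral_rpow_eq_lintegral_meas_lt_mul μ
    (Filter.Eventually.of_forall (fun x => ENNReal.toReal_nonneg)) 
    (((measurable_I φ).min measurable_const).ennreal_toReal.aemeasurable) h0]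
  rw [← lintegral_const_mul' _ _ ENNReal.ofReal_ne_top]
  calc ∫⁻ t in Ioi (0 : ℝ), ENNReal.ofReal p *
        (μ {a | t < (min (I φ a) (N : ℝ≥0∞)).toReal} * ENNReal.ofReal (t ^ (p - 1)))
      ≤ ∫⁻ t in Ioi (0 : ℝ), isoConst p w μ * (ENNReal.ofReal (p * t ^ (p - 1)) *
          energy p w (psi (p / (p - 1)) φ t)) := by
        refine setLIntegral_mono' measurableSet_Ioi ?_
        intro t ht
        have h2 : μ {a | t < (min (I φ a) (N : ℝ≥0∞)).toReal} ≤
            isoConst p w μ * energy p w (psi (p / (p - 1)) φ t) := by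
          refine le_trans (measure_mono ?_) (level_le hp hC φ ht)
          intro x hx
          have : t < (min (I φ x) (N : ℝ≥0∞)).toReal := hx
          have h3 := (ENNReal.ofReal_lt_iff_lt_toReal (le_of_lt ht) (hne x)).mpr this
          exact lt_of_lt_of_le h3 (min_le_left _ _)
        calc _ ≤ ENNReal.ofReal p * ((isoConst p w μ * energy p w (psi (p / (p - 1)) φ t)) *
              ENNReal.ofReal (t ^ (p - 1))) := by gcongr
          _ = _ := by
            rw [ENNReal.ofReal_mul h0.le]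
            ring
    _ = isoConst p w μ * ∫⁻ t in Ioi (0 : ℝ), (ENNReal.ofReal (p * t ^ (p - 1)) *
          energy p w (psi (p / (p - 1)) φ t)) := lintegral_const_mul' _ _ hC
    _ ≤ isoConst p w μ * (ENNReal.ofReal (p ^ p / (p - 1) ^ (p - 1)) * energy p w φ) := by
        gcongr
        exact energy_int hp w φ
    _ = _ := by ring

/-- **The Hardy inequality with the constant `K_p [[μ]]_c`.** -/
theorem hardy {p : ℝ} (hp : 1 < p) {w : T.V → ℝ≥0} {μ : Measure T.Pt}
    (hC : isoConst p w μ ≠ ⊤) (φ : T.V → ℝ≥0) :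
    ∫⁻ x, I φ x ^ p ∂μ
      ≤ ENNReal.ofReal (p ^ p / (p - 1) ^ (p - 1)) * isoConst p w μ * energy p w φ := by
  have h0 : 0 < p := by linarith
  have e1 : ∀ x, I φ x ^ p = ⨆ N : ℕ, min (I φ x) (N : ℝ≥0∞) ^ p := by
    intro x
    have h2 : I φ x = ⨆ N : ℕ, min (I φ x) (N : ℝ≥0∞) := by
      rw [← inf_iSup_eq, ENNReal.iSup_natCast, inf_top_eq]
    nth_rw 1 [h2]
    exact (ENNReal.orderIsoRpow p h0).map_iSup _
  simp_rw [e1]
  rw [lintegral_iSup]
  · exact iSup_le (hardy_trunc hp hC φ)
  · intro N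
    exact ((measurable_I φ).min measurable_const).pow_const p
  · intro N M hNM x
    have : (N : ℝ≥0∞) ≤ M := by exact_mod_cast hNM
    exact ENNReal.rpow_le_rpow (min_le_min_left _ this) h0.le

theorem hardyConst_le {p : ℝ} (hp : 1 < p) (w : T.V → ℝ≥0) (μ : Measure T.Pt) :
    hardyConst p w μ ≤ ENNReal.ofReal (p ^ p / (p - 1) ^ (p - 1)) * isoConst p w μ := by
  by_cases hC : isoConst p w μ = ⊤
  · rw [hC, ENNReal.mul_top]
    · exact le_top
    · have h1 : 0 < p - 1 := by linarith
      have h0 : 0 < p := by linarith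
      have : 0 < p ^ p / (p - 1) ^ (p - 1) := by positivity
      exact (ENNReal.ofReal_pos.mpr this).ne'
  · exact sInf_le (hardy hp hC)

/-- The isocapacitary constant is the same if all finite families of edges and the measure of the
union are used. -/
theorem isoConst_eq (p : ℝ) (w : T.V → ℝ≥0) (μ : Measure T.Pt) :
    isoConst p w μ = ⨆ (F : Finset T.V) (_ : F.Nonempty),
      μ (⋃ α ∈ F, T.S α) / cap p w (⋃ α ∈ F, T.S α) := by
  classical
  apply le_antisymm
  · refine iSup_le fun F => iSup_le fun hne => iSup_le fun hd => ?_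
    refine le_iSup₂_of_le F hne ?_
    rw [measure_biUnion_finset hd (fun α _ => (isOpen_S α).measurableSet)]
  · refine iSup_le fun F => iSup_le fun hne => ?_
    set F' : Finset T.V := F.filter (fun α => ∀ β ∈ F, β ∈ T.anc α → β = α) with hF'
    have hmin : ∀ n : ℕ, ∀ α ∈ F, depth α = n → ∃ β ∈ F', β ∈ T.anc α := by
      intro n
      induction n using Nat.strong_induction_on with
      | _ n ih =>
        intro α hα hn
        by_cases h : ∀ β ∈ F, β ∈ T.anc α → β = α
        · exact ⟨α, Finset.mem_filter.mpr ⟨hα, h⟩, self_mem_anc α⟩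
        · push Not at h
          obtain ⟨β, hβ, hβα, hne⟩ := h
          have hβ2 : β ∈ T.anc (T.parent α) := by
            rw [anc_eq] at hβα
            rcases hβα with h | h
            · exact absurd h hne
            · exact h
          have hαr : α ≠ T.root := by
            rintro rfl
            rw [anc_root] at hβα
            exact hne hβα
          have h1 := depth_le_of_mem_anc hβ2
          have h2 := depth_parent hαr
          obtain ⟨γ, hγ, hγ2⟩ := ih (depth β) (by omega) β hβ rfl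
          exact ⟨γ, hγ, anc_trans hβα hγ2⟩
    have hU : ⋃ α ∈ F', T.S α = ⋃ α ∈ F, T.S α := by
      apply subset_antisymm
      · refine iUnion₂_subset fun α hα => ?_
        exact subset_biUnion_of_mem (u := fun α => T.S α)
          (show α ∈ (F : Set T.V) from (Finset.mem_filter.mp hα).1)
      · refine iUnion₂_subset fun α hα => ?_
        obtain ⟨β, hβ, h⟩ := hmin _ α hα rfl
        refine subset_trans ?_ (subset_biUnion_of_mem (u := fun α => T.S α)
          (show β ∈ (F' : Set T.V) from hβ))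
        intro x hx
        exact anc_subset hx h
    have hne' : F'.Nonempty := by
      obtain ⟨α, hα⟩ := hne
      obtain ⟨β, hβ, _⟩ := hmin _ α hα rfl
      exact ⟨β, hβ⟩
    have hd : (F' : Set T.V).PairwiseDisjoint T.S := by
      intro α hα β hβ hne
      refine Set.disjoint_left.mpr ?_
      intro x hx hy
      have hα' := Finset.mem_filter.mp (Finset.mem_coe.mp hα)
      have hβ' := Finset.mem_filter.mp (Finset.mem_coe.mp hβ)
      rcases x.2.2 α hx β hy with h | h
      · exact hne (hβ'.2 α hα'.1 h)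
      · exact hne (hα'.2 β hβ'.1 h).symm
    rw [← hU]
    refine le_iSup₂_of_le F' hne' (le_iSup_of_le hd ?_)
    rw [measure_biUnion_finset hd (fun α _ => (isOpen_S α).measurableSet)]

end PTree

end Q279.HT
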